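import Pool.Agent.U136.DX.Stm5

set_option autoImplicit false

/-!
# Project DX (helper136), package SEPL: the derivatives of `lapP e m + q` separate the integer points (helper390)
-/

namespace Pool.Agent.U390.DX

open MeasureTheory Pool.Agent.N983.RT Pool.Agent.U136.DS Pool.Agent.U136.DX MvPolynomial

theorem mem_der (e : Fin 3 → ℝ) (P : MvPolynomial (Fin 3) ℝ) (j : Fin 3) :
    pderiv j (dE e P) ∈ Submodule.span ℝ (Der P) := by
  have h : pderiv j (dE e P) = ∑ i, e i • pderiv j (pderiv i P) := by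
    unfold dE
    rw [map_sum]
    refine Finset.sum_congr rfl fun i _ => ?_
    rw [← smul_eq_C_mul, Derivation.map_smul]
  rw [h]
  refine Submodule.sum_mem _ fun i _ => Submodule.smul_mem _ _ (Submodule.subset_span ?_)
  exact ⟨[j, i], by simp, rfl⟩

theorem ev_add (A B : MvPolynomial (Fin 3) ℝ) (k : Wv) : ev (A + B) k = ev A k + ev B k := by
  unfold ev
  rw [map_add]

theorem dE_add (e : Fin 3 → ℝ) (A B : MvPolynomial (Fin 3) ℝ) : dE e (A + B) = dE e A + dE e B := by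
  unfold dE
  rw [← Finset.sum_add_distrib]
  refine Finset.sum_congr rfl fun i _ => ?_
  rw [map_add, mul_add]

theorem nsq_nonneg' (k : Wv) : 0 ≤ nsq k := by
  unfold nsq
  exact Finset.sum_nonneg fun i _ => sq_nonneg _

theorem nsq_sub_eq (k k' : Wv) : nsq (k - k') = ∑ i, ((k i : ℝ) - k' i) ^ 2 := by
  unfold nsq
  refine Finset.sum_congr rfl fun i _ => ?_
  simp

theorem v_sq_le (k k' : Wv) (j : Fin 3) : ((k j : ℝ) - k' j) ^ 2 ≤ nsq (k - k') := by
  rw [nsq_sub_eq]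
  exact Finset.single_le_sum (f := fun i => ((k i : ℝ) - k' i) ^ 2) (fun i _ => sq_nonneg _)
    (Finset.mem_univ j)

theorem abs_v_le (k k' : Wv) (j : Fin 3) : |(k j : ℝ) - k' j| ≤ nsq (k - k') := by
  refine le_trans ?_ (v_sq_le k k' j)
  have h1 : ((k j : ℝ) - k' j) = ((k j - k' j : ℤ) : ℝ) := by push_cast; ring
  rw [h1]
  obtain ⟨z, hz⟩ : ∃ z : ℤ, z = k j - k' j := ⟨_, rfl⟩
  rw [← hz]
  have h2 : |z| ≤ z ^ 2 := by
    rcases eq_or_ne z 0 with h | h
    · simp [h]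
    · have h3 : 1 ≤ |z| := Int.one_le_abs h
      calc |z| = |z| * 1 := (mul_one _).symm
        _ ≤ |z| * |z| := mul_le_mul_of_nonneg_left h3 (abs_nonneg _)
        _ = z ^ 2 := by rw [← sq, sq_abs]
  have h4 : ((|z| : ℤ) : ℝ) ≤ ((z ^ 2 : ℤ) : ℝ) := by exact_mod_cast h2
  push_cast at h4
  exact h4

theorem d_pos {k k' : Wv} (h : k ≠ k') : 0 < nsq (k - k') := by
  obtain ⟨j, hj⟩ := Function.ne_iff.1 h
  have h1 : (k j : ℝ) - k' j ≠ 0 := by
    intro h2
    apply hj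
    have : (k j : ℝ) = k' j := by linarith
    exact_mod_cast this
  exact lt_of_lt_of_le (by positivity) (v_sq_le k k' j)

theorem pow_mean {a b : ℝ} (ha : 0 ≤ a) (hb : 0 ≤ b) (n : ℕ) : ((a + b) / 2) ^ n ≤ a ^ n + b ^ n := by
  rcases le_total a b with h | h
  · calc ((a + b) / 2) ^ n ≤ b ^ n := pow_le_pow_left₀ (by linarith) (by linarith) n
      _ ≤ a ^ n + b ^ n := by
        have := pow_nonneg ha n
        linarith
  · calc ((a + b) / 2) ^ n ≤ a ^ n := pow_le_pow_left₀ (by linarith) (by linarith) n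
      _ ≤ a ^ n + b ^ n := by
        have := pow_nonneg hb n
        linarith

theorem t_SEPL : S_SEPL := by
  intro hM hP hL e m he hm q hq
  obtain ⟨c, hc, hmono⟩ := hM m hm
  obtain ⟨D, hD⟩ : ∃ D : ℕ, D = 2 * m - 3 := ⟨_, rfl⟩
  have hD3 : q.totalDegree ≤ D + 3 := by omega
  choose Cj hCj0 hCj using fun j => hL D q hD3 e j
  obtain ⟨C, hC⟩ : ∃ C : ℝ, C = ∑ j, Cj j := ⟨_, rfl⟩
  have hC0 : 0 ≤ C := by rw [hC]; exact Finset.sum_nonneg fun j _ => hCj0 j
  have hCle : ∀ j, Cj j ≤ C := fun j => by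
    rw [hC]
    exact Finset.single_le_sum (f := Cj) (fun i _ => hCj0 i) (Finset.mem_univ j)
  obtain ⟨E, hE⟩ : ∃ E : ℝ, E = ∑ i, e i ^ 2 := ⟨_, rfl⟩
  have hE0 : 0 < E := by
    obtain ⟨i, hi⟩ := Function.ne_iff.1 he
    rw [hE]
    have h1 : 0 < e i ^ 2 := by
      have : e i ≠ 0 := hi
      positivity
    exact lt_of_lt_of_le h1 (Finset.single_le_sum (f := fun i => e i ^ 2) (fun i _ => sq_nonneg _)
      (Finset.mem_univ i))
  obtain ⟨n, hn⟩ : ∃ n : ℕ, n = m - 1 := ⟨_, rfl⟩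
  have hn2 : 2 ≤ n := by omega
  have h2n : 2 * n = D + 1 := by omega
  obtain ⟨c1, hc1⟩ : ∃ c1 : ℝ, c1 = c * E * (1 / 2) ^ n := ⟨_, rfl⟩
  have hc10 : 0 < c1 := by rw [hc1]; positivity
  refine ⟨3, fun j => pderiv j (dE e (lapP e m + q)), c1 / 12, max 1 (36 * C * 2 ^ D / c1 ^ 2),
    by positivity, fun j => mem_der e _ j, fun k k' hkk hX => ?_⟩
  obtain ⟨S, hS⟩ : ∃ S : ℝ, S = nsq k + nsq k' := ⟨_, rfl⟩
  rw [← hS] at hX ⊢
  have hS1 : 1 ≤ S := (le_max_left _ _).trans hX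
  have hS0 : 0 < S := by linarith
  have hSX : 36 * C * 2 ^ D ≤ c1 ^ 2 * S := by
    have h1 := (le_max_right (1 : ℝ) _).trans hX
    rw [div_le_iff₀ (by positivity)] at h1
    linarith
  obtain ⟨d, hd⟩ : ∃ d : ℝ, d = nsq (k - k') := ⟨_, rfl⟩
  have hd0 : 0 < d := by rw [hd]; exact d_pos hkk
  obtain ⟨A, hA⟩ : ∃ A : ℝ, A = c1 * S ^ n := ⟨_, rfl⟩
  have hA0 : 0 < A := by rw [hA]; positivity
  -- the main term
  have hF1 : A * d ≤ ∑ j, (GG e m (fun i => (k i : ℝ)) j - GG e m (fun i => (k' i : ℝ)) j) *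
      ((k j : ℝ) - k' j) := by
    refine le_trans ?_ (hmono e (fun i => (k i : ℝ)) (fun i => (k' i : ℝ)))
    rw [← nsq_sub_eq, ← hd, ← hE, ← hn]
    have h1 : (S / 2) ^ n ≤ (∑ i, (k i : ℝ) ^ 2) ^ n + (∑ i, (k' i : ℝ) ^ 2) ^ n := by
      rw [hS]
      exact pow_mean (nsq_nonneg' k) (nsq_nonneg' k') n
    have h2 : A = c * E * (S / 2) ^ n := by
      rw [hA, hc1, div_pow, div_pow, one_pow]
      ring
    rw [h2]
    gcongr
  -- the error term
  have hF5 : 36 * (C * (1 + S) ^ D) ≤ A ^ 2 := by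
    have h1 : (1 + S) ^ D ≤ 2 ^ D * S ^ D := by
      rw [← mul_pow]
      exact pow_le_pow_left₀ (by linarith) (by linarith) D
    calc 36 * (C * (1 + S) ^ D) ≤ 36 * (C * (2 ^ D * S ^ D)) := by gcongr
      _ = (36 * C * 2 ^ D) * S ^ D := by ring
      _ ≤ (c1 ^ 2 * S) * S ^ D := by gcongr
      _ = c1 ^ 2 * S ^ (D + 1) := by ring
      _ = A ^ 2 := by rw [hA, mul_pow, ← pow_mul, mul_comm n 2, h2n]
  have hF2 : ∀ j, |(ev (pderiv j (dE e q)) k - ev (pderiv j (dE e q)) k') * ((k j : ℝ) - k' j)| ≤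
      A * d / 6 := by
    intro j
    have h1 : (ev (pderiv j (dE e q)) k - ev (pderiv j (dE e q)) k') ^ 2 ≤ C * (1 + S) ^ D * d := by
      refine (hCj j k k').trans ?_
      rw [add_assoc, ← hS, ← hd]
      have := hCle j
      gcongr
    have h2 := v_sq_le k k' j
    rw [← hd] at h2
    apply abs_le_of_sq_le_sq _ (by positivity)
    rw [mul_pow]
    calc (ev (pderiv j (dE e q)) k - ev (pderiv j (dE e q)) k') ^ 2 * ((k j : ℝ) - k' j) ^ 2 ≤
        (C * (1 + S) ^ D * d) * d := mul_le_mul h1 h2 (sq_nonneg _) (by positivity)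
      _ = (36 * (C * (1 + S) ^ D)) * (d ^ 2 / 36) := by ring
      _ ≤ A ^ 2 * (d ^ 2 / 36) := by gcongr
      _ = (A * d / 6) ^ 2 := by ring
  -- the contradiction
  by_contra hcon
  push Not at hcon
  have hQ : ∀ j, ev (pderiv j (dE e (lapP e m + q))) k - ev (pderiv j (dE e (lapP e m + q))) k' =
      (GG e m (fun i => (k i : ℝ)) j - GG e m (fun i => (k' i : ℝ)) j) +
      (ev (pderiv j (dE e q)) k - ev (pderiv j (dE e q)) k') := by
    intro j
    rw [dE_add, map_add, ev_add, ev_add, hP e m (by omega) k j, hP e m (by omega) k' j]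
    ring
  have hF6 : ∀ j, (GG e m (fun i => (k i : ℝ)) j - GG e m (fun i => (k' i : ℝ)) j) * ((k j : ℝ) - k' j) ≤
      A * d / 12 + A * d / 6 := by
    intro j
    have h1 := hcon j
    rw [hQ j] at h1
    have h2 := abs_v_le k k' j
    rw [← hd] at h2
    have h3 := (abs_le.1 (hF2 j)).1
    have h4 : ((GG e m (fun i => (k i : ℝ)) j - GG e m (fun i => (k' i : ℝ)) j) +
        (ev (pderiv j (dE e q)) k - ev (pderiv j (dE e q)) k')) * ((k j : ℝ) - k' j) ≤
        c1 / 12 * S ^ 2 * d := by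
      refine (le_abs_self _).trans ?_
      rw [abs_mul]
      exact mul_le_mul h1.le h2 (abs_nonneg _) (by positivity)
    have h5 : c1 / 12 * S ^ 2 * d ≤ A * d / 12 := by
      rw [hA]
      have : S ^ 2 ≤ S ^ n := pow_le_pow_right₀ hS1 hn2
      calc c1 / 12 * S ^ 2 * d ≤ c1 / 12 * S ^ n * d := by gcongr
        _ = _ := by ring
    nlinarith [h3, h4, h5]
  have hF7 := Finset.sum_le_sum fun j (_ : j ∈ (Finset.univ : Finset (Fin 3))) => hF6 j
  rw [Finset.sum_const, Finset.card_univ, Fintype.card_fin, nsmul_eq_mul] at hF7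
  have hAd : 0 < A * d := mul_pos hA0 hd0
  push_cast at hF7
  linarith

end Pool.Agent.U390.DX
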